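import Pool.Agent.Helper56.UD.Main

/-! MP_de7261_nt: the non-tempered part of L2(Bun_G(F_q)) is exponentially small at every bundle:
the density theorem with a factor counting meromorphic automorphisms, and without any factor as
soon as the close meromorphic automorphisms generate a finite group, which they do at every bundle
if the functions with poles in B and few poles are constant. -/

open Pool.Agent.Helper80.AT
open Pool.Agent.Helper56.UD

namespace Pool.Agent.Results.MP_de7261_nt.DensityTheorem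

theorem result {F : Type} [Field F] (X : Places F) {N : ℕ}
    (Γ : Subgroup (Matrix.GeneralLinearGroup (Fin N) F)) (W : Submodule ℂ (Classes X Γ → ℂ))
    {J : Type} [Fintype J] (L : J → List (Hecke X Γ)) (D : ℕ) (hD : ∀ j, wordSize (L j) ≤ D)
    (A : ℝ) (hW : Bounded W L A) (s : ℝ) (hs : 1 ≤ s)
    (hA : (∑ j, wordNorm (L j) ^ 2) * ((s + s⁻¹) / 2) ^ 2 ≤ A ^ 2)
    (B : Set X.V) (hB : ∀ j, ∀ T ∈ L j, T.x ∈ B) (m : ℕ) :
    (∀ (P₀ : Bundle X Γ) (R : ℕ),
      Finite (Subgroup.closure (CloseAut B P₀ (2 * (R + m * D)))) →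
      ∀ S : Finset (Classes X Γ), NearIn B P₀ R S → ∀ w ∈ W,
        massOn S w ≤ (2 / (s ^ m + s⁻¹ ^ m)) ^ 2 * sqNorm w) ∧
    (∀ R : ℕ, GonOn X B (4 * N ^ 3 * (R + m * D)) → ∀ P₀ : Bundle X Γ,
      Finite (Subgroup.closure (CloseAut B P₀ (2 * (R + m * D))))) ∧
    (GonOn X B (4 * N ^ 3 * (m * D)) → ∀ S : Finset (Classes X Γ),
      TraceLe W S ((2 / (s ^ m + s⁻¹ ^ m)) ^ 2 * S.card)) ∧
    (∀ (P₀ : Bundle X Γ) (R : ℕ) (S : Finset (Classes X Γ)), Near P₀ R S → ∀ w ∈ W,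
        massOn S w ≤ autNum P₀ (2 * (R + m * D)) / autNum P₀ 0 * (2 / (s ^ m + s⁻¹ ^ m)) ^ 2 *
          sqNorm w) ∧
    ∀ S : Finset (Classes X Γ),
      TraceLe W S ((2 / (s ^ m + s⁻¹ ^ m)) ^ 2 * autOn S (2 * (m * D))) :=
  ⟨(uniform_main hD hW hs hA B hB m).1, (uniform_main hD hW hs hA B hB m).2.1,
    (uniform_main hD hW hs hA B hB m).2.2, (sharp_main hD hW hs hA m).1,
    (sharp_main hD hW hs hA m).2.2⟩

end Pool.Agent.Results.MP_de7261_nt.DensityTheorem
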