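import Pool.Agent.Helper45.FG.Final
import Pool.Agent.Helper45.FG.Lam

/-! The exact first gap of the quasi-minuscule Hecke operator between the regular part of
L2(Bun_G) and its orthogonal complement, and the rigidity of its end. -/

namespace Pool.Agent.Results.MP_de7261_nt.FirstGap

open Pool.Agent.Helper45.FG Pool.Agent.Helper80.AT

/-- For every affine type t other than A_n and every q there is a function chi of words such that
for every group A with parahoric subgroups of type t, every subgroup Γ with finite stabilisers on
A/K and every f in L2(Γ\A/K) orthogonal to the functions invariant under P 0: (f, T f) is at most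
lam times the squared norm of f, and in case of equality f is an eigenfunction of all spherical
Hecke operators e_K T_(l_1) T_(l_2) ... with eigenvalues chi. -/
theorem result (t : AffType) (ht : t.ok) (q : ℕ) (hq : 2 ≤ q) :
    ∃ chi : List ℕ → ℝ, ∀ (A : Type) [Group A] (S : Parahoric A t q), S.U.relIndex S.K ≠ 0 →
      ∀ Γ : Subgroup A, (∀ P : A ⧸ S.K, Finite (MulAction.stabilizer Γ P)) →
      ∀ f : Bun Γ (A ⧸ S.K) → ℂ, IsL2 f → S.Orth Γ f →
        S.form Γ f ≤ t.lam q * nrm f ∧
        (S.form Γ f = t.lam q * nrm f → ∀ L : List ℕ, (∀ l ∈ L, l ≤ t.rank) →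
          S.sph Γ L f = fun x => (chi L : ℂ) * f x) := by
  refine ⟨chi q t.rank t.par (t.e q) (t.kap q), ?_⟩
  intro A _ S h0 Γ hV f hf ho
  have hq1 : (1 : ℝ) < q := by exact_mod_cast (by omega : 1 < q)
  rw [lam_eq hq1 t ht]
  exact S.main ht hq h0 Γ f hf ho

end Pool.Agent.Results.MP_de7261_nt.FirstGap
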