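import Pool.Agent.Helper80.AT.ManyTop

/-! MP_de7261_nt: Hecke operators at many places. Large deviations of Satake parameters, and small
mass of the joint Hecke eigenspaces, at bundles with few meromorphic automorphisms. -/

open Pool.Agent.Helper80.AT

namespace Pool.Agent.Results.MP_de7261_nt.ManyPlaces

theorem result {F : Type} [Field F] (X : Places F) {N : ℕ}
    (Γ : Subgroup (Matrix.GeneralLinearGroup (Fin N) F)) :
    (∀ (B : Finset X.V) (h : (x : X.V) → HeckeFn X Γ x) (D : ℕ),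
      (∀ x ∈ B, ∀ g ∈ X.K Γ x, (h x).h g = 0) → (∀ x ∈ B, X.deg x * (h x).rad ≤ D) →
      ∀ (W : Submodule ℂ (Classes X Γ → ℂ)) (A : ℝ), Large W B h A →
      ∀ (r : ℕ) (S : Finset (Classes X Γ)),
        TraceLe W S ((r + 1).factorial * vTot B h * (4 * rTot B h) ^ r / A ^ (2 * (r + 1)) *
          autOn S (2 * ((r + 1) * D)))) ∧
    (∀ (B : Finset X.V), B.Nonempty → ∀ (h : (x : X.V) → HeckeFn X Γ x) (κ : ℝ) (D : ℕ),
      TestFamily B h κ D → ∀ (W : Submodule ℂ (Classes X Γ → ℂ)) (r : ℕ)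
        (S : Finset (Classes X Γ)),
      (∀ (α : ℝ) (ε : X.V → ℝ), MeanBiased W B h α ε →
        TraceLe W S ((r + 1).factorial * κ * (16 * κ ^ 2) ^ r / (α ^ 2 * B.card) ^ (r + 1) *
          autOn S (4 * ((r + 1) * D)))) ∧
      (∀ lam : X.V → ℂ, (∀ x ∈ B, ∀ g ∈ X.K Γ x, (h x).h g = 0) → JointEigen W B h lam →
        TraceLe W S ((r + 1).factorial * (4 * κ) * (64 * κ ^ 2) ^ r / B.card ^ (r + 1) *
          autOn S (4 * ((r + 1) * D))))) ∧
    (∀ n : ℕ, X.Gon n → autOn {cls Γ (Bundle X Γ) (triv X Γ)} n = 1) ∧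
    (∀ n R : ℕ, X.Gon (n + 2 * R) → ∀ S : Finset (Classes X Γ), Near (triv X Γ) R S →
      autOn S n ≤ autNum (triv X Γ) 0 * ∑ b ∈ S, mass b) :=
  ⟨fun _ _ _ hK hD _ _ hW r S => ld_main hK hD hW le_rfl le_rfl vTot_le_rTot r S,
    fun _ hB _ _ _ hT _ r S => ⟨fun _ _ hW => top_a hB hT hW r S,
      fun _ hK hW => top_b hB hT hK hW r S⟩,
    fun _ hn => autOn_triv _ hn, fun _ _ hn S hS => autOn_near hn S hS⟩

end Pool.Agent.Results.MP_de7261_nt.ManyPlaces
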