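import Pool.Agent.Helper91.DE.Main

/-! MP_de7261_nt: points of the tempered spectrum at several places are approximate joint
eigenvalues on the orthogonal complement of the non-tempered part, for bundles of large injectivity
radius, in particular for curves of large gonality. -/

open Pool.Agent.Helper80.AT Pool.Agent.Helper91.DE

namespace Pool.Agent.Results.MP_de7261_nt.TemperedSpectrum

theorem result {F : Type} [Field F] (X : Places F) {N : ℕ}
    (Γ : Subgroup (Matrix.GeneralLinearGroup (Fin N) F)) :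
    (∀ (x : X.V) {I : Type} [Fintype I] (h : I → HeckeFn X Γ x) (c : I → ℂ),
      JointSpec h c ↔ ∀ ε : ℝ, 0 < ε → ∃ R, LocalEig h c ε R) ∧
    (∀ m : ℕ, X.Gon m → Rigid (triv X Γ) m) ∧
    ∀ (P₀ : Bundle X Γ) (m : ℕ), Rigid P₀ m →
      ∀ (W : Submodule ℂ (Classes X Γ → ℂ)) {J : Type} [Fintype J] (L : J → List (Hecke X Γ))
        (D : ℕ), (∀ j, wordSize (L j) ≤ D) → ∀ A : ℝ, Bounded W L A →
      ∀ n : ℕ, theta L A ^ n < 1 →
      ∀ (S : Finset X.V) {I : Type} [Fintype I] (h : ∀ x : X.V, I → HeckeFn X Γ x)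
        (c : X.V → I → ℂ) (ε : X.V → ℝ) (R : X.V → ℕ),
        (∀ x ∈ S, StableAt W (h x)) → (∀ x ∈ S, LocalEig (h x) (c x) (ε x) (R x)) →
        2 * (∑ x ∈ S, X.deg x * R x + n * D) ≤ m →
        (∀ x ∈ S, ∀ i, 2 * (X.deg x * (h x i).rad + ∑ x ∈ S, X.deg x * R x) ≤ m) →
        ∃ w : Classes X Γ → ℂ, IsL2 w ∧ w ≠ 0 ∧ Orth W w ∧
          defect S h c w ≤ (∑ x ∈ S, ε x ^ 2) / (1 - theta L A ^ n) * sqNorm w :=
  ⟨fun _ _ _ h c => jointSpec_iff h c, fun m hm => (spec_main X Γ m).1 hm,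
    fun _ _ hP _ _ _ _ _ hD _ hW _ ht S _ _ h c ε R hst hloc hm1 hm2 =>
      tempered_main hP hD hW ht S h c hst ε R hloc hm1 hm2⟩

end Pool.Agent.Results.MP_de7261_nt.TemperedSpectrum
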